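import Pool.Agent.Helper65.BQ.St

/-! Project BQ (MP_ee405c_gt), module SIX: sets meeting all big closed sets are strongly
infinite-dimensional -/

set_option autoImplicit false

open Set Topology TopologicalSpace

namespace Pool.Agent.Helper28.BQ

open Pool.Agent.Helper9.SID Pool.Agent.Helper65.BQ

theorem pSIX : StSIX := by
  intro K _ _ _ f hf X hX hbig
  letI : MetricSpace K := metrizableSpaceMetric K
  obtain ⟨_, κ, hκ⟩ := hbig
  have c1 : ∀ i, closure {x | f (κ (2 * i)) x < 1 / 4} ⊆ {x | f (κ (2 * i)) x ≤ 1 / 4} := by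
    intro i
    apply closure_minimal
    · intro x hx
      have h1 : f (κ (2 * i)) x < 1 / 4 := hx
      exact h1.le
    · exact isClosed_le (hf _) continuous_const
  have c2 : ∀ i, closure {x | 3 / 4 < f (κ (2 * i)) x} ⊆ {x | 3 / 4 ≤ f (κ (2 * i)) x} := by
    intro i
    apply closure_minimal
    · intro x hx
      have h1 : 3 / 4 < f (κ (2 * i)) x := hx
      exact h1.le
    · exact isClosed_le continuous_const (hf _)
  have hd : ∀ i, Disjoint (closure {x | f (κ (2 * i)) x < 1 / 4})
      (closure {x | 3 / 4 < f (κ (2 * i)) x}) := by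
    intro i
    rw [Set.disjoint_left]
    intro x h1 h2
    have h3 : f (κ (2 * i)) x ≤ 1 / 4 := c1 i h1
    have h4 : 3 / 4 ≤ f (κ (2 * i)) x := c2 i h2
    linarith
  refine ⟨fun i => Subtype.val ⁻¹' closure {x | f (κ (2 * i)) x < 1 / 4},
    fun i => Subtype.val ⁻¹' closure {x | 3 / 4 < f (κ (2 * i)) x},
    fun i => ⟨isClosed_closure.preimage continuous_subtype_val,
      isClosed_closure.preimage continuous_subtype_val, (hd i).preimage _⟩, fun M hM => ?_⟩
  have key : ∀ i, ∃ L : Set K, Par (f (κ (2 * i))) L ∧ ∀ z : X, (z : K) ∈ L → z ∈ M i := by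
    intro i
    refine exists_partition_ext X (A := lo (f (κ (2 * i)))) (B := hi (f (κ (2 * i)))) ?_ ?_
      ((isOpen_lt (hf _) continuous_const)) (isOpen_lt continuous_const (hf _)) (hd i) (hM i)
    · intro x hx
      have : f (κ (2 * i)) x ≤ 0 := hx
      change f (κ (2 * i)) x < 1 / 4
      linarith
    · intro x hx
      have : 1 ≤ f (κ (2 * i)) x := hx
      change 3 / 4 < f (κ (2 * i)) x
      linarith
  choose L hL1 hL2 using key
  have hT : Big f (⋂ i, L i) := by
    refine ⟨isClosed_iInter fun i => (hL1 i).1, fun i => κ (2 * i + 1), ?_⟩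
    intro L' hL'
    have hN : ∀ j, Par (f (κ j)) (if j % 2 = 0 then L (j / 2) else L' (j / 2)) := by
      intro j
      by_cases hj : j % 2 = 0
      · rw [if_pos hj]
        have h1 := hL1 (j / 2)
        have h2 : 2 * (j / 2) = j := by omega
        rw [h2] at h1
        exact h1
      · rw [if_neg hj]
        have h1 := hL' (j / 2)
        have h2 : 2 * (j / 2) + 1 = j := by omega
        simp only [h2] at h1
        exact h1
    obtain ⟨x, _, hx⟩ := hκ (fun j => if j % 2 = 0 then L (j / 2) else L' (j / 2)) hN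
    rw [mem_iInter] at hx
    refine ⟨x, ?_, ?_⟩
    · rw [mem_iInter]
      intro i
      have h1 := hx (2 * i)
      have h2 : 2 * i % 2 = 0 := by omega
      have h3 : 2 * i / 2 = i := by omega
      simp only [h2, h3, if_true] at h1
      exact h1
    · rw [mem_iInter]
      intro i
      have h1 := hx (2 * i + 1)
      have h2 : ¬ (2 * i + 1) % 2 = 0 := by omega
      have h3 : (2 * i + 1) / 2 = i := by omega
      simp only [h2, h3, if_false] at h1
      exact h1
  obtain ⟨x, hx1, hx2⟩ := hX _ hT
  rw [mem_iInter] at hx1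
  refine ⟨⟨x, hx2⟩, ?_⟩
  rw [mem_iInter]
  intro i
  exact hL2 i ⟨x, hx2⟩ (hx1 i)

end Pool.Agent.Helper28.BQ
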